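import Pool.Agent.P.MP_caa3d2_al.Monoid

/-!
Finite presentations with a primitive recursive isoperimetric function for finitely generated
groups of units.
-/

set_option autoImplicit false

noncomputable section

namespace Pool.Agent.P.MP_caa3d2_al

open FreeGroup hiding map_mul map_one map_inv

variable {A I U : Type} [Group U] {N : Subgroup (FreeGroup A)} {L : ℕ} {s : ℕ → A × Bool}
  {ρ : FreeGroup I →* FreeGroup A} {π : FreeGroup I →* U}

theorem finite_retr [Finite I] (h : St L s N ρ π) : ∃ (m : ℕ) (R : Set (Wd (Fin m)))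
    (W : I × Bool → Wd (Fin m)) (f : ℕ → ℕ), R.Finite ∧ Primrec f ∧
      (∀ ω : Wd I, ρ (mk ω) ∈ N → Der R (f ω.length) (ω.flatMap W) []) ∧
      ∃ κ : FreeGroup (Fin m) →* U, (∀ x ∈ R, κ (mk x) = 1) ∧
        ∀ ω : Wd I, κ (mk (ω.flatMap W)) = π (mk ω) := by
  obtain ⟨G, hG, hG', key⟩ := core h
  obtain ⟨f, hf, hq⟩ := magnus h.hL A s h.per h.rd (s 0).1 ⟨0, rfl⟩
  have hC := CG_lp h hG'
  have hq' := (hq _ _ _ (cs_cx h.per hC)).2
    (cs_nw h.hL h.per h.rd (fun n hn => h.pr_eq n (Subgroup.mem_inf.1 hn).2) _)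
  obtain ⟨wx, c, hw⟩ := exists_words ρ
  let Lo := LG L s ρ G
  let R0 := Rel L (cs Lo s '' G)
  have hper : ∀ g ∈ G, Per L (cs Lo s g) := fun g hg => cs_per h.per (lp_mem_LG hg)
  have hR0 : R0.Finite := by
    refine (hG.image2 (fun g p => seg (cs Lo s g) p L) (Set.finite_Iio L)).subset ?_
    rintro _ ⟨_, ⟨g, hg, rfl⟩, p, rfl⟩
    refine ⟨g, hg, p % L, Nat.mod_lt _ h.hL, seg_congr fun q _ => ?_⟩
    rw [← (hper g hg).mod, ← (hper g hg).mod (p + q), Nat.mod_add_mod]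
  let W0 : I × Bool → Wd (Vx Lo × A) := fun x => lw (mkV Lo) 1 (wx x)
  let S : Set (Vx Lo × A) := ⋃ w ∈ R0 ∪ Set.range W0, Prod.fst '' {x | x ∈ w}
  have hS : ∀ w ∈ R0 ∪ Set.range W0, Over S w := fun w hw x hx =>
    Set.mem_biUnion hw ⟨x, hx, rfl⟩
  obtain ⟨m, e, d, hd⟩ := exists_enc (S := S) ((hR0.union (Set.finite_range W0)).biUnion
    fun w _ => (List.finite_toSet w).image _)
  have hW : ∀ ω : Wd I, lw (mkV Lo) 1 (ω.flatMap wx) = ω.flatMap W0 := by
    intro ω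
    induction ω with
    | nil => rfl
    | cons x ω ih =>
      have e1 := (hw [x]).1
      rw [List.flatMap_singleton] at e1
      rw [List.flatMap_cons, List.flatMap_cons, lw_append, one_mul, e1, ← ih]
      congr 1
      simpa using lw_mul (mkV Lo) (mkV_mul (rho_mem G (mk [x]))) 1 _
  have hE : ∀ ω : Wd I, enc e (ω.flatMap W0) = ω.flatMap fun x => enc e (W0 x) := fun ω =>
    List.filterMap_flatMap
  refine ⟨m, enc e '' R0, fun x => enc e (W0 x), fun n => f (c * n), hR0.image _,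
    hf.comp (Primrec.nat_mul.comp (Primrec.const c) Primrec.id), fun ω hω => ?_, ?_⟩
  · have e1 := Lm_lw (Lo ⊓ N) 1 (ω.flatMap wx)
    rw [one_mul, (hw ω).1, show Lm (Lo ⊓ N) 1 = 1 by simp [Lm], one_mul] at e1
    obtain ⟨v, hv, hD⟩ := hq' ∅ (Set.empty_subset _) (c * ω.length)
      (lw (mkV (Lo ⊓ N)) 1 (ω.flatMap wx)) [] (by rw [lw_length]; exact (hw ω).2)
      (fun x hx => by simp at hx) (by
        rw [← e1, pm_Lm hC (key ⟨rho_mem G _, hω⟩), ← one_eq_mk, map_one])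
    obtain rfl : v = [] := List.eq_nil_iff_forall_not_mem.2 fun x hx => hv x hx
    let p : Vx (Lo ⊓ N) → Vx Lo := Quotient.lift (mkV Lo) fun g g' e =>
      mkV_eq.2 (mkV_eq.1 (Quotient.sound e : mkV (Lo ⊓ N) g = mkV _ g')).1
    have hD' := hD.hom (R' := R0) (fun w => w.map fun x => ((p x.1.1, x.1.2), x.2))
      (fun a b => List.map_append) fun x hx => Or.inl (by
        have hr : ∀ y ∈ Rel L (cs (Lo ⊓ N) s '' CG L s ρ G),
            y.map (fun x => ((p x.1.1, x.1.2), x.2)) ∈ R0 := by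
          rintro _ ⟨_, ⟨_, ⟨l, hl, g, hg, rfl⟩, rfl⟩, q, rfl⟩
          refine ⟨_, ⟨g, hg, rfl⟩, q, ?_⟩
          rw [seg_map]
          refine seg_congr fun j _ => ?_
          show ((mkV Lo _, _), _) = ((mkV Lo _, _), _)
          rw [mul_assoc, mkV_mul hl]; rfl
        rcases hx with ⟨a, b, rfl⟩ | hx | hx
        · exact Or.inl ⟨_, b, rfl⟩
        · exact Or.inr (Or.inl (hr x hx))
        · refine Or.inr (Or.inr ?_)
          convert hr _ hx using 1
          simp [invRev])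
    simp only [lw_map, List.map_nil] at hD'
    have hD2 := hD'.hom (R' := enc e '' R0) (enc e) (enc_append e)
      (enc_ins e fun x hx => ⟨x, hx, rfl⟩)
    rw [← hE, ← hW]
    exact hD2
  · obtain ⟨ψ, hψ⟩ := exists_psi h hG'
    let t : FreeGroup A → FreeGroup A := fun g => (mkV Lo g).out
    have ht : ∀ g, g * (t g)⁻¹ ∈ Lo := fun g => mkV_eq.1 (Quotient.out_eq _)
    let F : FreeGroup A → U := fun g => ψ ⟨_, ht g⟩
    have hF : ∀ l (hl : l ∈ Lo) g, F (l * g) = ψ ⟨l, hl⟩ * F g := fun l hl g => by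
      rw [← map_mul]
      exact congrArg ψ (Subtype.ext (by simp [t, mkV_mul hl, mul_assoc]))
    let β : Vx Lo × A → U := fun e => (F e.1.out)⁻¹ * F (e.1.out * FreeGroup.of e.2)
    have hβ : ∀ g, F g = F 1 * FreeGroup.lift β (Lm Lo g) := fun g => by
      rw [← integ_eq_lift]
      refine integ_unique _ F (fun g a => ?_) g
      obtain ⟨n, hn, e⟩ := exists_of_mkV (N := Lo) (Quotient.out_eq (mkV Lo g)).symm
      simp only [β]
      rw [e, mul_assoc n, hF n hn, hF n hn]; group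
    refine ⟨(MulAut.conj (F 1)).toMonoidHom.comp (FreeGroup.lift fun j => β (d j)), ?_, fun ω => ?_⟩
    · rintro _ ⟨_, ⟨_, ⟨g, hg, rfl⟩, p, rfl⟩, rfl⟩
      rw [MonoidHom.comp_apply, hd β _ (hS _ (Or.inl ⟨_, ⟨g, hg, rfl⟩, p, rfl⟩))]
      have e2 := hβ (g * pre s (p + L))
      rw [Lm_pre, map_mul, ← mul_assoc, ← hβ, h.per.pre_add, ← mul_assoc, ← lp_mul (L := L),
        mul_assoc, hF _ (lp_mem_LG hg), hψ _ 1 _ (hG' g hg) (by simp), map_one, one_mul] at e2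
      rw [mul_eq_left.1 e2.symm, map_one]
    · rw [MonoidHom.comp_apply, ← hE, hd β _ (fun x hx => by
        obtain ⟨y, -, hy⟩ := List.mem_flatMap.1 hx
        exact hS _ (Or.inr ⟨y, rfl⟩) x hy), ← hW]
      have e2 := Lm_lw Lo 1 (ω.flatMap wx)
      rw [one_mul, (hw ω).1, show Lm Lo 1 = 1 by simp [Lm], one_mul] at e2
      have e3 := hβ (ρ (mk ω) * 1)
      rw [hF _ (rho_mem G _), mul_one, e2, hψ _ (mk ω) 1 (one_mem _) (by simp)] at e3
      show F 1 * _ * (F 1)⁻¹ = _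
      rw [← e3, mul_inv_cancel_right]

theorem finite_ins {E : Type} [Finite E] {R : Set (Wd E)} (hR : R.Finite) :
    {x | Ins R x}.Finite := by
  refine (((Set.finite_range fun y : E × Bool => [(y.1, y.2), (y.1, !y.2)]).union hR).union
    (hR.image invRev)).subset ?_
  rintro x (⟨e, b, rfl⟩ | hx | hx)
  · exact Or.inl (Or.inl ⟨(e, b), rfl⟩)
  · exact Or.inl (Or.inr hx)
  · exact Or.inr ⟨_, hx, invRev_invRev⟩

theorem dehn_of_st [Finite I] (h : St L s N ρ π) : ∃ (R : Set (Wd I)) (f : ℕ → ℕ), R.Finite ∧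
    Primrec f ∧ (∀ x ∈ R, π (mk x) = 1) ∧ ∀ ω : Wd I, π (mk ω) = 1 → Der R (f ω.length) ω [] := by
  obtain ⟨m, R, W, f, hR, hf, hD, κ, h1, h2⟩ := finite_retr h
  have hσ : ∀ x : Fin m × Bool, ∃ w : Wd I, π (mk w) = κ (mk [x]) := fun x => by
    obtain ⟨⟨w⟩, hw⟩ := h.surj (κ (mk [x]))
    exact ⟨w, hw⟩
  choose σ hσ using hσ
  have hσ' : ∀ w : Wd (Fin m), π (mk (w.flatMap σ)) = κ (mk w) := by
    intro w
    induction w with
    | nil => simp [← one_eq_mk]
    | cons x w ih =>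
      rw [List.flatMap_cons, ← mul_mk, map_mul, hσ, ih, ← map_mul, mul_mk]; rfl
  let R' : Set (Wd I) := (fun w => w.flatMap σ) '' {x | Ins R x} ∪
    Set.range fun y : I × Bool => invRev [y] ++ (W y).flatMap σ
  refine ⟨R', fun n => 2 * n + f n, ((finite_ins hR).image _).union (Set.finite_range _),
    Primrec.nat_add.comp (Primrec.nat_mul.comp (Primrec.const 2) Primrec.id) hf, ?_, fun ω hω => ?_⟩
  · rintro _ (⟨x, hx, rfl⟩ | ⟨y, rfl⟩)
    · have := (Der.single (R := R) (w := x) (w' := [])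
        ⟨[], x, [], hx, Or.inr ⟨by simp, rfl⟩⟩).sound κ h1
      rw [hσ', this, ← one_eq_mk, map_one]
    · have := h2 [y]
      rw [List.flatMap_singleton] at this
      rw [← mul_mk, map_mul, hσ', this, ← inv_mk, map_inv, inv_mul_cancel]
  · have e1 := (hD ω ((h.ker _).1 hω)).hom (R' := R') (fun w => w.flatMap σ)
      (fun a b => List.flatMap_append) fun x hx => Or.inl (Or.inr (Or.inl (Or.inl ⟨x, hx, rfl⟩)))
    have e2 := Der.flatMap (R := R') (k := 2) (fun y => (W y).flatMap σ) ω fun y _ => by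
      have a1 : Mv R' [y] ([y] ++ (invRev [y] ++ (W y).flatMap σ) ++ []) :=
        ⟨[y], _, [], Or.inr (Or.inl (Or.inr ⟨y, rfl⟩)), Or.inl ⟨by simp, rfl⟩⟩
      have a2 := (Der.cancel (R := R') [y]).ctx [] ((W y).flatMap σ)
      refine Der.step a1 ?_
      simpa using a2
    rw [← List.flatMap_assoc] at e2
    exact e2.trans e1

theorem Der.area {E : Type} [DecidableEq E] {R : Set (Wd E)} {K : ℕ} (hK : ∀ x ∈ R, x.length ≤ K)
    {n : ℕ} {w w' : Wd E} (h : Der R n w w') :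
    ∃ l : List (FreeGroup E × FreeGroup E), l.length ≤ n ∧
      (∀ p ∈ l, p.1.norm ≤ w.length + (K + 2) * n ∧ (p.2 ∈ mk '' R ∨ p.2⁻¹ ∈ mk '' R)) ∧
      (l.map fun p => p.1 * p.2 * p.1⁻¹).prod * mk w' = mk w := by
  induction h with
  | refl n w => exact ⟨[], by simp, by simp, by simp⟩
  | @step n w w' w'' h1 _ ih =>
    obtain ⟨l, a1, a2, a3⟩ := ih
    have hl := (Der.single h1).length_le hK
    have a2' : ∀ p ∈ l, p.1.norm ≤ w.length + (K + 2) * (n + 1) ∧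
        (p.2 ∈ mk '' R ∨ p.2⁻¹ ∈ mk '' R) := fun p hp =>
      ⟨(a2 p hp).1.trans (by rw [Nat.mul_succ]; omega), (a2 p hp).2⟩
    obtain ⟨a, x, b, hx, h⟩ := h1
    have ha : (mk a).norm ≤ w.length + (K + 2) * (n + 1) := by
      refine norm_mk_le.trans ?_
      rcases h with h | h <;> rw [h.1] <;> simp only [List.length_append] <;> omega
    have key : ∃ z, (z = mk x ∨ z = (mk x)⁻¹) ∧ mk a * z * (mk a)⁻¹ * mk w' = mk w := by
      rcases h with h | h
      · exact ⟨_, Or.inr rfl, by rw [h.1, h.2]; simp only [← mul_mk]; group⟩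
      · exact ⟨_, Or.inl rfl, by rw [h.1, h.2]; simp only [← mul_mk]; group⟩
    obtain ⟨z, hz, e⟩ := key
    have fin : (z ∈ mk '' R ∨ z⁻¹ ∈ mk '' R) → ∃ l : List (FreeGroup E × FreeGroup E),
        l.length ≤ n + 1 ∧ (∀ p ∈ l, p.1.norm ≤ w.length + (K + 2) * (n + 1) ∧
          (p.2 ∈ mk '' R ∨ p.2⁻¹ ∈ mk '' R)) ∧
        (l.map fun p => p.1 * p.2 * p.1⁻¹).prod * mk w'' = mk w := by
      intro hz
      refine ⟨(mk a, z) :: l, by simpa using a1, ?_, by
        rw [List.map_cons, List.prod_cons, mul_assoc _ (List.prod _), a3, e]⟩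
      intro v hv
      rcases List.mem_cons.1 hv with rfl | hv
      · exact ⟨ha, hz⟩
      · exact a2' v hv
    rcases hx with ⟨c, d, rfl⟩ | hx | hx
    · have e0 : (mk [(c, d), (c, !d)] : FreeGroup E) = 1 := by
        rw [one_eq_mk]; exact Quot.sound (Red.Step.cons_not)
      have : z = 1 := by rcases hz with rfl | rfl <;> simp [e0]
      refine ⟨l, by omega, a2', ?_⟩
      rw [a3, ← e, this, mul_one, mul_inv_cancel, one_mul]
    · rcases hz with rfl | rfl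
      · exact fin (Or.inl ⟨x, hx, rfl⟩)
      · exact fin (Or.inr ⟨x, hx, (inv_inv _).symm⟩)
    · rcases hz with rfl | rfl
      · exact fin (Or.inr ⟨_, hx, inv_mk.symm⟩)
      · exact fin (Or.inl ⟨_, hx, inv_mk.symm⟩)

theorem dehn_mem [Finite A] [Finite I] (ρ : FreeGroup I →* FreeGroup A)
    (hn : ∀ ω, ∀ n ∈ N, ρ ω * n * (ρ ω)⁻¹ ∈ N)
    (h : N = ⊥ ∨ ∃ (L : ℕ) (s : ℕ → A × Bool), 0 < L ∧ Per L s ∧ Rd s ∧
      N ≤ NC L s {g | lp L s g ∈ N}) : ∃ (R : Set (Wd I)) (f : ℕ → ℕ), R.Finite ∧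
    Primrec f ∧ (∀ x ∈ R, ρ (mk x) ∈ N) ∧ ∀ ω : Wd I, ρ (mk ω) ∈ N → Der R (f ω.length) ω [] := by
  rcases isEmpty_or_nonempty A with hA | ⟨⟨a⟩⟩
  · refine ⟨Set.range fun x => [x], fun n => 1 * n, Set.finite_range _,
      Primrec.nat_mul.comp (Primrec.const 1) Primrec.id, fun x _ => ?_, fun ω _ => ?_⟩
    · rw [Subsingleton.elim (ρ (mk x)) 1]; exact one_mem _
    · have := Der.flatMap (R := Set.range fun x => [x]) (k := 1) (fun _ => []) ω fun y _ =>
        Der.single ⟨[], [y], [], Or.inr (Or.inl ⟨y, rfl⟩), Or.inr ⟨by simp, rfl⟩⟩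
      rwa [List.flatMap_eq_nil_iff.2 fun _ _ => rfl] at this
  have h' : ∃ (L : ℕ) (s : ℕ → A × Bool), 0 < L ∧ Per L s ∧ Rd s ∧
      N ≤ NC L s {g | lp L s g ∈ N} := by
    rcases h with rfl | h
    · exact ⟨1, fun _ => (a, true), one_pos, fun _ => rfl, fun _ => by simp [nv], bot_le⟩
    · exact h
  obtain ⟨L, s, h1, h2, h3, h4⟩ := h'
  have : (N.comap ρ).Normal := ⟨fun n hn' g => by simpa using hn g _ hn'⟩
  obtain ⟨R, f, a1, a2, a3, a4⟩ := dehn_of_st (π := QuotientGroup.mk' (N.comap ρ))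
    ⟨h1, h2, h3, h4, hn, QuotientGroup.mk'_surjective _, fun ω => QuotientGroup.eq_one_iff ω⟩
  exact ⟨R, f, a1, a2, fun x hx => (QuotientGroup.eq_one_iff (N := N.comap ρ) _).1 (a3 x hx),
    fun ω hω => a4 ω ((QuotientGroup.eq_one_iff (N := N.comap ρ) _).2 hω)⟩

theorem IM.dehn [Finite A] {M : Type} [Monoid M] {r : Wd A} {q : Wd A → M} (h : IM r q) {k : ℕ}
    (g : Fin k → Mˣ) : ∃ (R : Finset (FreeGroup (Fin k))) (f : ℕ → ℕ), Primrec f ∧
      (∀ s ∈ R, FreeGroup.lift g s = 1) ∧ ∀ w, FreeGroup.lift g w = 1 →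
        ∃ l : List (FreeGroup (Fin k) × FreeGroup (Fin k)), l.length ≤ f w.norm ∧
          (∀ p ∈ l, p.1.norm ≤ f w.norm ∧ (p.2 ∈ R ∨ p.2⁻¹ ∈ R)) ∧
          (l.map fun p => p.1 * p.2 * p.1⁻¹).prod = w := by
  classical
  choose wd hg using fun i => h.surj (g i : M)
  have hg' : ∀ i, q (invRev (wd i)) = (↑(g i)⁻¹ : M) := fun i =>
    (Units.inv_eq_of_mul_eq_one_right (hg i ▸ h.ru (hg i ▸ (g i).mul_inv))).symm
  let ρ : FreeGroup (Fin k) →* FreeGroup A := FreeGroup.lift fun i => mk (wd i)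
  let σ : Fin k × Bool → Wd A := fun p => if p.2 then wd p.1 else invRev (wd p.1)
  have key : ∀ ω : Wd (Fin k), mk (ω.flatMap σ) = ρ (mk ω) ∧ q (ω.flatMap σ) =
      (FreeGroup.lift g (mk ω) : Mˣ) := by
    intro ω
    induction ω with
    | nil => simp [h.nil, ← one_eq_mk]
    | cons x ω ih =>
      rw [List.flatMap_cons, ← mul_mk, h.app, ih.1, ih.2, mk_cons, map_mul, map_mul, Units.val_mul]
      obtain ⟨i, b⟩ := x
      cases b <;> simp [σ, ρ, sg, hg, hg', inv_mk]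
  have hiff : ∀ ω : Wd (Fin k), ρ (mk ω) ∈ NN r ↔ FreeGroup.lift g (mk ω) = 1 := fun ω => by
    obtain ⟨a1, a2⟩ := key ω
    rw [← a1, ← h.eq_one (a2 ▸ Units.mul_inv _), a2, Units.val_eq_one]
  obtain ⟨R, f, a1, a2, a3, a4⟩ := dehn_mem ρ (N := NN r) (by
    rintro ⟨ω⟩ n hn
    obtain ⟨v, rfl, hv⟩ := h.word_N hn
    obtain ⟨a1, a2⟩ := key ω
    have := (h.act (ω.flatMap σ ++ v ++ invRev (ω.flatMap σ)) (by
      rw [h.app, h.app, hv, mul_one]
      exact h.ru (a2 ▸ Units.mul_inv _))).2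
    rwa [← mul_mk, ← mul_mk, ← inv_mk, a1] at this) (NN_cases r)
  obtain ⟨K, hK⟩ := (a1.image List.length).bddAbove
  refine ⟨(a1.image mk).toFinset, fun n => n + (K + 2) * f n, Primrec.nat_add.comp Primrec.id
    (Primrec.nat_mul.comp (Primrec.const _) a2), fun s hs => ?_, fun w hw => ?_⟩
  · obtain ⟨x, hx, rfl⟩ := (Set.Finite.mem_toFinset _).1 hs
    exact (hiff x).1 (a3 x hx)
  · obtain ⟨l, b1, b2, b3⟩ := (a4 w.toWord ((hiff _).2 (by rwa [mk_toWord]))).area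
      (K := K) fun x hx => hK ⟨x, hx, rfl⟩
    refine ⟨l, b1.trans ?_, fun p hp => ?_, by rwa [← one_eq_mk, mul_one, mk_toWord] at b3⟩
    · show f w.norm ≤ w.norm + (K + 2) * f w.norm
      nlinarith
    · simp only [Set.Finite.mem_toFinset]
      exact b2 p hp

end Pool.Agent.P.MP_caa3d2_al
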