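import Pool.Agent.P.MP_caa3d2_al.D.Dehn
import Pool.Agent.P.MP_caa3d2_al.Sub

/-!
The isoperimetric bound for arbitrary subgroups of a one-relator inverse monoid.
-/

set_option autoImplicit false

namespace Pool.Agent.P.MP_caa3d2_al

open FreeGroup hiding map_mul map_one map_inv

theorem dehn_of_sub {A : Type} [Finite A] {G : Type*} [Group G] {k : ℕ} (g : Fin k → G)
    (h : ∃ (N : Subgroup (FreeGroup A)) (ρ : FreeGroup (Fin k) →* FreeGroup A),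
      (N = ⊥ ∨ ∃ (L : ℕ) (s : ℕ → A × Bool), 0 < L ∧ Per L s ∧ Rd s ∧
        N ≤ NC L s {g | lp L s g ∈ N}) ∧ (∀ ω, ∀ n ∈ N, ρ ω * n * (ρ ω)⁻¹ ∈ N) ∧
      ∀ ω, FreeGroup.lift g ω = 1 ↔ ρ ω ∈ N) :
    ∃ (R : Finset (FreeGroup (Fin k))) (f : ℕ → ℕ), Primrec f ∧
      (∀ s ∈ R, FreeGroup.lift g s = 1) ∧ ∀ w, FreeGroup.lift g w = 1 →
        ∃ l : List (FreeGroup (Fin k) × FreeGroup (Fin k)), l.length ≤ f w.norm ∧
          (∀ p ∈ l, p.1.norm ≤ f w.norm ∧ (p.2 ∈ R ∨ p.2⁻¹ ∈ R)) ∧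
          (l.map fun p => p.1 * p.2 * p.1⁻¹).prod = w := by
  obtain ⟨N, ρ, h1, h2, hiff⟩ := h
  obtain ⟨R, f, a1, a2, a3, a4⟩ := dehn_mem ρ h2 h1
  obtain ⟨K, hK⟩ := (a1.image List.length).bddAbove
  refine ⟨(a1.image mk).toFinset, fun n => n + (K + 2) * f n, Primrec.nat_add.comp Primrec.id
    (Primrec.nat_mul.comp (Primrec.const _) a2), fun s hs => ?_, fun w hw => ?_⟩
  · obtain ⟨x, hx, rfl⟩ := (Set.Finite.mem_toFinset _).1 hs
    exact (hiff _).2 (a3 x hx)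
  · obtain ⟨l, b1, b2, b3⟩ := (a4 w.toWord ((hiff _).1 (by rwa [mk_toWord]))).area
      (K := K) fun x hx => hK ⟨x, hx, rfl⟩
    refine ⟨l, b1.trans ?_, fun p hp => ?_, by rwa [← one_eq_mk, mul_one, mk_toWord] at b3⟩
    · show f w.norm ≤ w.norm + (K + 2) * f w.norm
      nlinarith
    · simp only [Set.Finite.mem_toFinset]
      exact b2 p hp

end Pool.Agent.P.MP_caa3d2_al
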